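import Pool.Agent.H867.FT.Gen5

/-!
# Duals of powers over a Noetherian normal domain (FT DDC)
-/

set_option autoImplicit false
set_option linter.all false

namespace Pool.Agent.H295.FTDDC

open Pool.Agent.H867.FT

/-- the localization at a prime of height one (copied from `Pool.Agent.H307.FT867LOB`) -/
theorem isDVR (P : Type) [CommRing P] [IsDomain P] [IsNoetherianRing P] [IsIntegrallyClosed P]
    (𝔭 : Ideal P) [h𝔭 : 𝔭.IsPrime] (hh : 𝔭.height = 1) :
    IsDiscreteValuationRing (Localization.AtPrime 𝔭) := by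
  have hdim : ringKrullDim (Localization.AtPrime 𝔭) = 1 := by
    rw [IsLocalization.AtPrime.ringKrullDim_eq_height 𝔭 (Localization.AtPrime 𝔭), hh]
    rfl
  haveI : IsNoetherianRing (Localization.AtPrime 𝔭) :=
    IsLocalization.isNoetherianRing 𝔭.primeCompl _ inferInstance
  haveI hic : IsIntegrallyClosed (Localization.AtPrime 𝔭) :=
    isIntegrallyClosed_of_isLocalization (R := P) (S := Localization.AtPrime 𝔭) 𝔭.primeCompl
      (Ideal.primeCompl_le_nonZeroDivisors 𝔭)
  haveI : Ring.KrullDimLE 1 (Localization.AtPrime 𝔭) := Ring.krullDimLE_iff.2 (le_of_eq hdim)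
  have hnf : ¬ IsField (Localization.AtPrime 𝔭) := by
    intro hf
    have := ringKrullDim_eq_zero_of_isField hf
    rw [hdim] at this
    exact one_ne_zero this
  have h : (IsIntegrallyClosed (Localization.AtPrime 𝔭) ∧
      ∃! Q : Ideal (Localization.AtPrime 𝔭), Q ≠ ⊥ ∧ Q.IsPrime) ↔
      IsDiscreteValuationRing (Localization.AtPrime 𝔭) :=
    (IsDiscreteValuationRing.TFAE (Localization.AtPrime 𝔭) hnf).out 3 0
  refine h.1 ⟨hic, IsLocalRing.maximalIdeal _, ⟨?_, inferInstance⟩, ?_⟩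
  · exact fun h => hnf (IsLocalRing.isField_iff_maximalIdeal_eq.2 h)
  · rintro Q ⟨hQ, hQ'⟩
    exact IsLocalRing.eq_maximalIdeal (hQ'.isMaximal_of_ne_bot hQ)

section
variable {S K : Type} [CommRing S] [IsDomain S] [IsNoetherianRing S] [IsIntegrallyClosed S]
  [Field K] [Algebra S K] [IsFractionRing S K]

/-- divisibility at a height one prime is total, in the ring -/
theorem val_or_int (𝔭 : Ideal S) [𝔭.IsPrime] (hh : 𝔭.height = 1) (a b : S) :
    (∃ s : S, s ∉ 𝔭 ∧ ∃ r : S, s * a = r * b) ∨ (∃ s : S, s ∉ 𝔭 ∧ ∃ r : S, s * b = r * a) := by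
  haveI := isDVR S 𝔭 hh
  have hinj : Function.Injective (algebraMap S (Localization.AtPrime 𝔭)) :=
    IsLocalization.injective _ (Ideal.primeCompl_le_nonZeroDivisors 𝔭)
  have key : ∀ (a b : S) (c : Localization.AtPrime 𝔭),
      algebraMap S (Localization.AtPrime 𝔭) a * c = algebraMap S (Localization.AtPrime 𝔭) b →
      ∃ s : S, s ∉ 𝔭 ∧ ∃ r : S, s * b = r * a := by
    intro a b c hc
    obtain ⟨⟨r, s⟩, hrs⟩ := IsLocalization.surj 𝔭.primeCompl c
    refine ⟨s.1, s.2, r, hinj ?_⟩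
    rw [map_mul, map_mul, ← hc, ← hrs]
    ring
  obtain ⟨c, hc⟩ := ValuationRing.cond (algebraMap S (Localization.AtPrime 𝔭) a)
    (algebraMap S (Localization.AtPrime 𝔭) b)
  rcases hc with hc | hc
  · exact Or.inr (key a b c hc)
  · exact Or.inl (key b a c hc)

/-- divisibility at a height one prime is total -/
theorem val_or (𝔭 : Ideal S) [𝔭.IsPrime] (hh : 𝔭.height = 1) (a b : K) :
    (∃ s : S, s ∉ 𝔭 ∧ ∃ r : S, s • a = r • b) ∨ (∃ s : S, s ∉ 𝔭 ∧ ∃ r : S, s • b = r • a) := by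
  obtain ⟨a₁, a₂, ha₂, ha⟩ := IsFractionRing.div_surjective (A := S) a
  obtain ⟨b₁, b₂, hb₂, hb⟩ := IsFractionRing.div_surjective (A := S) b
  have ha0 : algebraMap S K a₂ ≠ 0 := by
    intro h
    exact nonZeroDivisors.ne_zero ha₂ ((IsFractionRing.injective S K) (by rw [h, map_zero]))
  have hb0 : algebraMap S K b₂ ≠ 0 := by
    intro h
    exact nonZeroDivisors.ne_zero hb₂ ((IsFractionRing.injective S K) (by rw [h, map_zero]))
  have key : ∀ s r : S, s * (a₁ * b₂) = r * (b₁ * a₂) → s • a = r • b := by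
    intro s r h
    have h1 := congrArg (algebraMap S K) h
    simp only [map_mul] at h1
    rw [Algebra.smul_def, Algebra.smul_def, ← ha, ← hb, mul_div_assoc', mul_div_assoc',
      div_eq_div_iff ha0 hb0]
    linear_combination h1
  have key2 : ∀ s r : S, s * (b₁ * a₂) = r * (a₁ * b₂) → s • b = r • a := by
    intro s r h
    have h1 := congrArg (algebraMap S K) h
    simp only [map_mul] at h1
    rw [Algebra.smul_def, Algebra.smul_def, ← ha, ← hb, mul_div_assoc', mul_div_assoc',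
      div_eq_div_iff hb0 ha0]
    linear_combination h1
  rcases val_or_int 𝔭 hh (a₁ * b₂) (b₁ * a₂) with ⟨s, hs, r, h⟩ | ⟨s, hs, r, h⟩
  · exact Or.inl ⟨s, hs, r, key s r h⟩
  · exact Or.inr ⟨s, hs, r, key2 s r h⟩

theorem fin_gen (𝔭 : Ideal S) [h𝔭 : 𝔭.IsPrime] (hh : 𝔭.height = 1) (t : Finset K) :
    t.Nonempty → ∃ y₀ ∈ t, ∃ s : S, s ∉ 𝔭 ∧ ∀ m ∈ t, ∃ r : S, s • m = r • y₀ := by
  classical
  have h1 : (1 : S) ∉ 𝔭 := fun h => h𝔭.ne_top ((Ideal.eq_top_iff_one _).2 h)
  induction t using Finset.induction_on with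
  | empty => intro h; exact absurd h Finset.not_nonempty_empty
  | insert x t hx ih =>
    intro _
    by_cases ht : t.Nonempty
    · obtain ⟨y₁, hy₁, s₁, hs₁, hm⟩ := ih ht
      rcases val_or 𝔭 hh x y₁ with ⟨s, hs, r, h⟩ | ⟨s, hs, r, h⟩
      · refine ⟨y₁, Finset.mem_insert_of_mem hy₁, s * s₁, fun h2 => ?_, fun m hmt => ?_⟩
        · exact (h𝔭.mem_or_mem h2).elim hs hs₁
        · rcases Finset.mem_insert.1 hmt with rfl | hmt
          · exact ⟨s₁ * r, by rw [mul_comm s s₁, mul_smul, h, mul_smul]⟩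
          · obtain ⟨r', hr'⟩ := hm m hmt
            exact ⟨s * r', by rw [mul_smul, hr', mul_smul]⟩
      · refine ⟨x, Finset.mem_insert_self _ _, s * s₁, fun h2 => ?_, fun m hmt => ?_⟩
        · exact (h𝔭.mem_or_mem h2).elim hs hs₁
        · rcases Finset.mem_insert.1 hmt with rfl | hmt
          · exact ⟨s * s₁, rfl⟩
          · obtain ⟨r', hr'⟩ := hm m hmt
            exact ⟨r' * r, by rw [mul_smul, hr', smul_comm, h, mul_smul]⟩
    · rw [Finset.not_nonempty_iff_eq_empty] at ht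
      subst ht
      refine ⟨x, Finset.mem_insert_self _ _, 1, h1, fun m hm => ⟨1, ?_⟩⟩
      rcases Finset.mem_insert.1 hm with rfl | hm
      · rfl
      · exact absurd hm (Finset.notMem_empty _)

/-- a finitely generated fractional ideal is principal at every height one prime -/
theorem loc_gen (𝔭 : Ideal S) [h𝔭 : 𝔭.IsPrime] (hh : 𝔭.height = 1) {M : Submodule S K}
    (hM : M ≠ ⊥) (hfg : M.FG) :
    ∃ y₀ ∈ M, y₀ ≠ 0 ∧ ∃ s : S, s ∉ 𝔭 ∧ ∀ m ∈ M, ∃ r : S, s • m = r • y₀ := by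
  classical
  obtain ⟨t, ht⟩ := hfg
  have htn : t.Nonempty := by
    rw [Finset.nonempty_iff_ne_empty]
    rintro rfl
    apply hM
    rw [← ht, Finset.coe_empty, Submodule.span_empty]
  obtain ⟨y₀, hy₀, s, hs, hm⟩ := fin_gen (K := K) 𝔭 hh t htn
  have hall : ∀ m ∈ M, ∃ r : S, s • m = r • y₀ := by
    intro m hmM
    rw [← ht] at hmM
    induction hmM using Submodule.span_induction with
    | mem x hx => exact hm x hx
    | zero => exact ⟨0, by rw [smul_zero, zero_smul]⟩
    | add x y _ _ hx hy =>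
      obtain ⟨r, hr⟩ := hx
      obtain ⟨r', hr'⟩ := hy
      exact ⟨r + r', by rw [smul_add, hr, hr', add_smul]⟩
    | smul a x _ hx =>
      obtain ⟨r, hr⟩ := hx
      exact ⟨a * r, by rw [smul_comm, hr, mul_smul]⟩
  refine ⟨y₀, ?_, ?_, s, hs, hall⟩
  · rw [← ht]
    exact Submodule.subset_span hy₀
  · rintro rfl
    obtain ⟨m, hmM, hm0⟩ := (Submodule.ne_bot_iff M).1 hM
    obtain ⟨r, hr⟩ := hall m hmM
    rw [smul_zero, Algebra.smul_def] at hr
    rcases mul_eq_zero.1 hr with h | h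
    · apply hs
      have h2 : s = 0 := (IsFractionRing.injective S K) (by rw [h, map_zero])
      rw [h2]
      exact 𝔭.zero_mem
    · exact hm0 h

end

/-- **DDC.** -/
theorem ddc (h : Pool.Agent.H867.FT.S_KRU) : Pool.Agent.H867.FT.S_DDC := by
  intro n S K _ _ _ _ _ _ _ M hM hfg
  apply le_antisymm
  · intro z hz
    rw [Submodule.mem_div_iff_forall_mul_mem] at hz ⊢
    intro w hw
    rw [Submodule.mem_div_iff_forall_mul_mem] at hw
    obtain ⟨g, hg⟩ := h S K (z * w) (fun 𝔭 hp hh => by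
      haveI := hp
      obtain ⟨y₀, hy₀, hy0, s, hs, hsM⟩ := loc_gen 𝔭 hh hM hfg
      have h1 : algebraMap S K s / y₀ ∈ (1 / M : Submodule S K) := by
        rw [Submodule.mem_div_iff_forall_mul_mem]
        intro m hm
        obtain ⟨r, hr⟩ := hsM m hm
        rw [Submodule.mem_one]
        refine ⟨r, ?_⟩
        rw [Algebra.smul_def, Algebra.smul_def] at hr
        rw [div_mul_eq_mul_div, hr, mul_div_assoc, div_self hy0, mul_one]
      obtain ⟨a, ha⟩ := Submodule.mem_one.1 (hz _ (Submodule.pow_mem_pow _ h1 n))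
      obtain ⟨b, hb⟩ := Submodule.mem_one.1 (hw _ (Submodule.pow_mem_pow _ hy₀ n))
      refine ⟨s ^ n, fun h2 => hs (hp.mem_of_pow_mem _ h2), a * b, ?_⟩
      rw [map_mul, ha, hb, map_pow, div_pow]
      have hy0n : y₀ ^ n ≠ 0 := pow_ne_zero _ hy0
      field_simp)
    rw [Submodule.mem_one]
    exact ⟨g, hg.symm⟩
  · intro z hz
    rw [Submodule.mem_div_iff_forall_mul_mem] at hz ⊢
    intro v hv
    refine hz v ?_
    rw [Submodule.mem_div_iff_forall_mul_mem]
    intro y hy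
    have h1 : v * y ∈ (1 / M) ^ n * M ^ n := Submodule.mul_mem_mul hv hy
    rw [← mul_pow] at h1
    have h2 : ((1 / M) * M) ^ n ≤ (1 : Submodule S K) := by
      calc ((1 / M) * M) ^ n ≤ (1 : Submodule S K) ^ n := by
            refine pow_le_pow_left' ?_ n
            rw [mul_comm]
            exact Submodule.mul_one_div_le_one
        _ = 1 := one_pow n
    exact h2 h1

end Pool.Agent.H295.FTDDC
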