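import Pool.Agent.H857.SG.Core

/-!
# SG B9e: the generic polynomials have symmetric groups (helper295)
-/

set_option autoImplicit false

namespace Pool.Agent.H295.SGb9e

open Module Polynomial Pool.Agent.W521.Descent Pool.Agent.W521.Density Pool.Agent.W521.Count
  Pool.Agent.X297.UB Pool.Agent.H857.PB Pool.Agent.H857.PA Pool.Agent.H857.HK Pool.Agent.H857.EF
  Pool.Agent.H857.WT Pool.Agent.H857.SG

theorem pinv {n : ℕ} (π : Equiv.Perm (Fin n)) (i : Fin n) : π (π⁻¹ i) = i :=
  Equiv.apply_symm_apply π i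

theorem pinv' {n : ℕ} (π : Equiv.Perm (Fin n)) (i : Fin n) : π⁻¹ (π i) = i :=
  Equiv.symm_apply_apply π i

/-- a group of permutations which contains a transposition, a permutation without fixed points and
one with exactly one fixed point and one further orbit -/
theorem eq_top_of {n : ℕ} (H : Subgroup (Equiv.Perm (Fin n))) (α β : Equiv.Perm (Fin n))
    (hα : α ∈ H) (hβ : β ∈ H) (i₀ : Fin n) (hα0 : α i₀ = i₀)
    (hαt : ∀ i j, i ≠ i₀ → j ≠ i₀ → ∃ m : ℕ, (α ^ m) i = j) (hβ0 : β i₀ ≠ i₀) (i j : Fin n)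
    (hij : i ≠ j) (hs : Equiv.swap i j ∈ H) : H = ⊤ := by
  have hfix : ∀ m : ℕ, (α ^ m) i₀ = i₀ := by
    intro m
    induction m with
    | zero => rfl
    | succ m ih => rw [pow_succ, Equiv.Perm.mul_apply, hα0, ih]
  have htr : ∀ a, ∃ τ ∈ H, τ i₀ = a := by
    intro a
    by_cases ha : a = i₀
    · exact ⟨1, H.one_mem, by rw [ha]; rfl⟩
    · obtain ⟨m, hm⟩ := hαt (β i₀) a hβ0 ha
      exact ⟨α ^ m * β, H.mul_mem (H.pow_mem hα m) hβ, by rw [Equiv.Perm.mul_apply, hm]⟩
  have h2 : ∀ a b, a ≠ b → ∃ τ ∈ H, τ i = a ∧ τ j = b := by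
    intro a b hab
    obtain ⟨τ₁, h1, e1⟩ := htr i
    obtain ⟨τ₂, h2, e2⟩ := htr a
    have hj : τ₁⁻¹ j ≠ i₀ := by
      intro h
      apply hij
      rw [← e1, ← h, pinv]
    have hb : τ₂⁻¹ b ≠ i₀ := by
      intro h
      apply hab
      rw [← e2, ← h, pinv]
    obtain ⟨m, hm⟩ := hαt _ _ hj hb
    refine ⟨τ₂ * α ^ m * τ₁⁻¹, H.mul_mem (H.mul_mem h2 (H.pow_mem hα m)) (H.inv_mem h1), ?_, ?_⟩
    · rw [Equiv.Perm.mul_apply, Equiv.Perm.mul_apply]
      have : τ₁⁻¹ i = i₀ := by rw [← e1, pinv']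
      rw [this, hfix, e2]
    · rw [Equiv.Perm.mul_apply, Equiv.Perm.mul_apply, hm, pinv]
  rw [eq_top_iff, ← Equiv.Perm.closure_isSwap, Subgroup.closure_le]
  rintro _ ⟨a, b, hab, rfl⟩
  obtain ⟨τ, hτ, ha, hb⟩ := h2 a b hab
  have h3 : Equiv.swap a b = τ * Equiv.swap i j * τ⁻¹ := by
    rw [← ha, ← hb, Equiv.swap_apply_apply]
  rw [h3]
  exact H.mul_mem (H.mul_mem hτ hs) (H.inv_mem hτ)

/-- the permutations which are induced by automorphisms -/
def indH {n : ℕ} (z : Fin n → QB) : Subgroup (Equiv.Perm (Fin n)) where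
  carrier := {π | ∃ σ : QB ≃ₐ[ℚ] QB, ∀ i, σ (z i) = z (π i)}
  one_mem' := ⟨AlgEquiv.refl, fun _ => rfl⟩
  mul_mem' := by
    rintro π π' ⟨σ, h⟩ ⟨σ', h'⟩
    exact ⟨σ'.trans σ, fun i => by
      rw [AlgEquiv.trans_apply, h', h, Equiv.Perm.mul_apply]⟩
  inv_mem' := by
    rintro π ⟨σ, h⟩
    refine ⟨σ.symm, fun i => ?_⟩
    rw [AlgEquiv.symm_apply_eq, h, pinv]

theorem b9e (h5 : W5) (h9 : B9d) : B9e := by
  classical
  intro k q d x y b f z hk hq hd hN hA hB hC hG
  have hq0 : 0 < q := by omega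
  -- the group
  obtain ⟨lA, _, sA, hlA, hqA, hsA, hsA2, hpA⟩ := hA
  obtain ⟨α, σα, hσα, hα, -⟩ := h5 k q d x y b f z hq0 hd hN lA sA hlA hqA hsA hsA2
  obtain ⟨i₀, hi₀, hαt⟩ := hα hpA
  obtain ⟨lB, _, sB, hlB, hqB, hsB, hsB2, hpB⟩ := hB
  obtain ⟨β, σβ, hσβ, -, hβ⟩ := h5 k q d x y b f z hq0 hd hN lB sB hlB hqB hsB hsB2
  obtain ⟨i, j, σ, hij, hσ⟩ := h9 k q d x y b f z hk hq0 hd hN hC
  have htop : indH z = ⊤ := eq_top_of (indH z) α β ⟨σα, hσα⟩ ⟨σβ, hσβ⟩ i₀ hi₀ hαt
    (hβ hpB i₀) i j hij ⟨σ, hσ⟩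
  -- the numbers are not zero
  have hqR : (0 : ℝ) < q := by exact_mod_cast hq0
  have hz0 : ∀ i, z i ≠ 0 := by
    intro i h0
    have h1 := hG.norm i
    rw [h0] at h1
    have h2 : (q : ℝ) = 0 := by
      rw [← h1]
      simp
    exact hqR.ne' h2
  refine ⟨fun i j hij => ?_, fun π => ?_⟩
  · by_contra hne
    have hij' : z i + (q : QB) / z i = z j + (q : QB) / z j := hij
    have h1 : (z i - z j) * (z i * z j - q) = 0 := by
      have e1 := hz0 i
      have e2 := hz0 j
      field_simp at hij'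
      linear_combination hij'
    rcases mul_eq_zero.1 h1 with h2 | h2
    · exact hne (hG.inj (sub_eq_zero.1 h2))
    · have h3 : (z i : ℂ) * (z j : ℂ) = (q : ℂ) := by
        have h4 : z i * z j = (q : QB) := sub_eq_zero.1 h2
        exact_mod_cast congrArg (fun w : QB => (w : ℂ)) h4
      have h4 := hG.rel (Pi.single i 1 + Pi.single j 1) (by
        refine ⟨1, one_pos, ?_⟩
        rw [pow_one, pow_one]
        have e1 : ∏ l, (z l : ℂ) ^ (2 * (Pi.single i 1 + Pi.single j 1 :
            Fin (2 * k + 2) → ℤ) l) = (z i : ℂ) ^ 2 * (z j : ℂ) ^ 2 := by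
          have e2 : ∀ l, (z l : ℂ) ^ (2 * (Pi.single i 1 + Pi.single j 1 :
              Fin (2 * k + 2) → ℤ) l) = (if l = i then (z l : ℂ) ^ 2 else 1) *
                (if l = j then (z l : ℂ) ^ 2 else 1) := by
            intro l
            have hzl : (z l : ℂ) ≠ 0 := by exact_mod_cast hz0 l
            rw [Pi.add_apply, mul_add, zpow_add₀ hzl]
            congr 1
            · by_cases hl : l = i
              · subst hl
                rw [Pi.single_eq_same, if_pos rfl]
                norm_cast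
              · rw [Pi.single_eq_of_ne hl, if_neg hl]
                simp
            · by_cases hl : l = j
              · subst hl
                rw [Pi.single_eq_same, if_pos rfl]
                norm_cast
              · rw [Pi.single_eq_of_ne hl, if_neg hl]
                simp
          rw [Finset.prod_congr rfl fun l _ => e2 l, Finset.prod_mul_distrib,
            Finset.prod_ite_eq' Finset.univ i, Finset.prod_ite_eq' Finset.univ j,
            if_pos (Finset.mem_univ i), if_pos (Finset.mem_univ j)]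
        have e3 : ∑ l, (Pi.single i 1 + Pi.single j 1 : Fin (2 * k + 2) → ℤ) l = 2 := by
          simp only [Pi.add_apply]
          rw [Finset.sum_add_distrib, Finset.sum_pi_single', Finset.sum_pi_single',
            if_pos (Finset.mem_univ i), if_pos (Finset.mem_univ j)]
          norm_num
        rw [e1, e3, ← mul_pow, h3]
        norm_cast)
      -- a third index
      obtain ⟨m, hm⟩ : ∃ m : Fin (2 * k + 2), m ∉ ({i, j} : Finset (Fin (2 * k + 2))) := by
        by_contra hcon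
        push Not at hcon
        have h5 : (Finset.univ : Finset (Fin (2 * k + 2))) ⊆ {i, j} := fun m _ => hcon m
        have h6 := Finset.card_le_card h5
        have h7 : ({i, j} : Finset (Fin (2 * k + 2))).card ≤ 2 := Finset.card_le_two
        rw [Finset.card_univ, Fintype.card_fin] at h6
        omega
      rw [Finset.mem_insert, Finset.mem_singleton, not_or] at hm
      have h5 := h4 i m
      rw [Pi.add_apply, Pi.add_apply, Pi.single_eq_same, Pi.single_eq_of_ne hne,
        Pi.single_eq_of_ne hm.1, Pi.single_eq_of_ne hm.2] at h5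
      norm_num at h5
  · have h1 : π ∈ indH z := by rw [htop]; exact Subgroup.mem_top π
    obtain ⟨τ, hτ⟩ := h1
    refine ⟨τ, fun l => ?_⟩
    show τ (z l + (q : QB) / z l) = z (π l) + (q : QB) / z (π l)
    rw [map_add, map_div₀, hτ, map_natCast]

end Pool.Agent.H295.SGb9e
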