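import Pool.Agent.H812.Tm.Spec1
import Pool.Graph.R_seed8.W571.Stu.Rev

/-!
Growth inside a hyperbolic run, relative to an earlier member of the run (`SRGT`), by reversal.
-/

set_option autoImplicit false

open Real

namespace Pool.Agent.H295.TmSRGT

open Pool.Agent.W811.Stu Pool.Agent.W571.Stu Pool.Agent.H812.Tm

/-- the derivative at the end of a word, by reversal -/
lemma revz (W : List Mv) (p : P3) :
    |(drun W p (fV p)).z| = |(drun W.reverse (rt (run W p)) (fV (rt (run W p)))).z| := by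
  have e1 := run_rev W p
  have e2 := drun_rev W p (fV p)
  obtain ⟨s, hs, H⟩ := drun_Gfl W.reverse
  have e3 := H (fun u => u.z) lin_z (rt (run W p))
  rw [e1, Gfl_z] at e3
  rw [drt_fV] at e2
  have hss : s * s = 1 := by rcases hs with h | h <;> rw [h] <;> norm_num
  have e4 : drt (run W p) (drun W p (fV p)) =
      sm s (Gfl (fun u => (drun W.reverse (rt (run W p)) u).z) (rt (run W p))) := by
    apply drun_inj W.reverse (rt (run W p))
    rw [drun_sm, e3, e2]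
    ext
    · simp only [sm]; linear_combination (-(-1 * (fV (rt p)).z)) * hss
    · simp only [sm]; linear_combination (-(-1 * (fV (rt p)).y)) * hss
    · simp only [sm]; linear_combination (-(-1 * (fV (rt p)).x)) * hss
  have hz1 : (drun W p (fV p)).z =
      s * (drun W.reverse (rt (run W p)) (fV (rt (run W p)))).z := congrArg P3.z e4
  rw [hz1, abs_sgn_mul hs]

lemma iter_rt (n : ℕ) (q : P3) : stepR^[n] (rt (stepR^[n] q)) = rt q := by
  have := run_rev (List.replicate n Mv.R) q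
  rwa [List.reverse_replicate, run_rep, run_rep] at this

lemma iter_rt' {i l : ℕ} (h : i ≤ l) (q : P3) :
    stepR^[i] (rt (stepR^[l] q)) = rt (stepR^[l - i] q) := by
  obtain ⟨m, rfl⟩ : ∃ m, l = i + m := ⟨l - i, by omega⟩
  rw [Nat.add_sub_cancel_left, Function.iterate_add_apply, iter_rt]

/-- the data after `n` steps -/
lemma gb {δ : ℝ} (n : ℕ) {p : P3} {s1 s2 s3 : L} (hM : Mir p s1 s2 s3) :
    ∃ t2 t3, Mir (stepR^[n] p) s1 t2 t3 ∧ ∀ (a b : L) (u : P3),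
      Dat δ p s1 s2 s3 a b u → Cn a → Cn b →
      ∃ a' b', Dat δ (stepR^[n] p) s1 t2 t3 a' b' (dRk n p u) ∧ Cn a' ∧ Cn b' ∧
        ip b' t2 = p.y ^ n * ip b s2 ∧
        ip b' b' = ip b b + ∑ i ∈ Finset.range n, (p.y ^ i * ip b s2) ^ 2 ∧
        ip b' s1 = ip b s1 +
          ∑ i ∈ Finset.range n, (stepR^[i + 1] p).x * (p.y ^ i * ip b s2) := by
  induction n with
  | zero =>
    refine ⟨s2, s3, hM, fun a b u h ha hb => ⟨a, b, h, ha, hb, by simp, by simp, by simp⟩⟩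
  | succ n ih =>
    obtain ⟨t2, t3, hT, H⟩ := ih
    refine ⟨t3, s3R (stepR^[n] p) t2 t3, ?_, fun a b u h ha hb => ?_⟩
    · rw [Function.iterate_succ_apply']; exact hT.R
    · obtain ⟨a', b', h', ha', hb', e1, e2, e3⟩ := H a b u h ha hb
      have c1 := Cn_pr hT.n1 hb'
      have c3 := Cn_pr hT.R.n3 hb'
      have b3 := h'.b3
      have ey : (stepR^[n] p).y = p.y := iter_y n p
      have f4 : ip b' (s3R (stepR^[n] p) t2 t3) = -ip b' t2 := by
        rw [s3R, ip_sub_right, ip_smul_right, b3]; ring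
      refine ⟨a' + pr s1 b', pr (s3R (stepR^[n] p) t2 t3) b', ?_, Cn_add ha' c1, c3, ?_, ?_, ?_⟩
      · rw [Function.iterate_succ_apply']; exact h'.R hT
      · have hy' := hT.hy
        rw [pr, ip_add_left, ip_smul_left, f4, s3R, ip_sub_left, ip_smul_left, hT.n3, hy', b3, e1,
          ey]
        ring
      · rw [norm_pr hT.R.n3, f4, e2, Finset.sum_range_succ, e1]; ring
      · have hx' := hT.hx; rw [ip_comm] at hx'
        have hz' := hT.hz; rw [ip_comm] at hz'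
        rw [pr, ip_add_left, ip_smul_left, f4, s3R, ip_sub_left, ip_smul_left, hx', hz', e3,
          Finset.sum_range_succ, e1]
        rw [Function.iterate_succ_apply']
        simp only [stepR]
        ring

/-- bound of geometric sums -/
lemma geo {y κ2 : ℝ} (h : 1 < κ2) (hy : κ2 ≤ y) (n : ℕ) :
    ∑ i ∈ Finset.range n, y ^ i ≤ y ^ n / (κ2 - 1) := by
  rw [le_div_iff₀ (by linarith)]
  have h1 := geom_sum_mul y n
  have h2 : 0 ≤ ∑ i ∈ Finset.range n, y ^ i :=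
    Finset.sum_nonneg fun i _ => pow_nonneg (by linarith) _
  have h3 : (∑ i ∈ Finset.range n, y ^ i) * (κ2 - 1) ≤
      (∑ i ∈ Finset.range n, y ^ i) * (y - 1) := mul_le_mul_of_nonneg_left (by linarith) h2
  linarith

lemma cnN {T U : L} {N P D H C : ℝ} (hT : Cn T) (hD : 0 < D) (hP : 0 < P)
    (h1 : D * P ^ 2 ≤ ip T T) (h2 : |ip T U| ≤ H * P) (h3 : 0 ≤ ip U U) (_ : 0 ≤ H)
    (hC0 : 0 < C) (hN : N * P = C) (hC : 2 * H ≤ C * D) : Cn (N • T + U) := by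
  have hN0 : 0 < N := by
    by_contra hc
    push Not at hc
    nlinarith [mul_nonneg (neg_nonneg.2 hc) hP.le]
  have h2' := abs_le.1 h2
  have hTT : 0 < ip T T := lt_of_lt_of_le (by positivity) h1
  apply Cn_of_ip hT hTT
  · simp only [ip_add_left, ip_add_right, ip_smul_left, ip_smul_right, ip_comm U T]
    have e1 : N * (N * (D * P ^ 2)) ≤ N * (N * ip T T) :=
      mul_le_mul_of_nonneg_left (mul_le_mul_of_nonneg_left h1 hN0.le) hN0.le
    have e2 : N * (N * (D * P ^ 2)) = (N * P) * (N * P) * D := by ring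
    have e3 : N * (-(H * P)) ≤ N * ip T U := mul_le_mul_of_nonneg_left h2'.1 hN0.le
    have e4 : N * (-(H * P)) = -(N * P) * H := by ring
    rw [hN] at e2 e4
    have e5 : C * (2 * H) ≤ C * (C * D) := mul_le_mul_of_nonneg_left hC hC0.le
    nlinarith
  · simp only [ip_add_right, ip_smul_right]
    have e1 : N * (D * P ^ 2) ≤ N * ip T T := mul_le_mul_of_nonneg_left h1 hN0.le
    have e2 : N * (D * P ^ 2) = P * (N * P * D) := by ring
    rw [hN] at e2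
    have e5 : P * (2 * H) ≤ P * (C * D) := mul_le_mul_of_nonneg_left hC hP.le
    nlinarith [mul_nonneg ‹0 ≤ H› hP.le]

lemma cnN' {T U : L} {N P D H C : ℝ} (hT : Cn T) (hD : 0 < D) (hP : 0 < P)
    (h1 : D * P ^ 2 ≤ ip T T) (h2 : |ip T U| ≤ H * P) (h3 : 0 ≤ ip U U) (hH : 0 ≤ H)
    (hC0 : 0 < C) (hN : N * P = C) (hC : 2 * H ≤ C * D) : Cn (N • T - U) := by
  rw [sub_eq_add_neg]
  refine cnN hT hD hP h1 ?_ ?_ hH hC0 hN hC
  · rw [ip_neg_right, abs_neg]; exact h2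
  · rw [ip_neg_right, ip_neg_left, neg_neg]; exact h3

lemma core {δ κ κ2 X Y : ℝ} (hδ : δ ≠ 0) (hκ1 : 1 ≤ κ) (hκ : κ < cc δ) (h2 : 1 < κ2)
    (hX0 : 0 ≤ X) (hY0 : 1 ≤ Y) :
    ∃ C : ℝ, 0 < C ∧ ∀ (n : ℕ) (Q : P3) (w : List Mv), 1 ≤ n → OnS δ Q → κ2 ≤ |Q.y| →
      |Q.y| ≤ Y → |Q.z| ≤ κ → |Q.x| ≤ κ → (∀ i < n, |(stepR^[i + 1] Q).x| ≤ X) →
      |(stepR^[n] Q).z| ≤ κ → (run w (stepR^[n] Q)).x ^ 2 < 1 + δ ^ 2 →
      |(drun w (stepR^[n] Q) (fV (stepR^[n] Q))).x| * |Q.y| ^ n ≤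
        C * |(drun w (stepR^[n] Q) (dRk n Q (fV Q))).x| := by
  have hc := cc_sq δ
  have hcp := cc_pos δ
  have hδ0 : 0 < |δ| := abs_pos.2 hδ
  have hδ2 : 0 < δ ^ 2 := by positivity
  have hgap : 0 < 1 + δ ^ 2 - κ ^ 2 := by nlinarith
  -- constants
  have hκ2' : 0 < κ2 - 1 := by linarith
  obtain ⟨A, hA⟩ : ∃ A : ℝ, A = |δ| * κ + X * (|δ| * Y) / (κ2 - 1) := ⟨_, rfl⟩
  have hA0 : 0 < A := by rw [hA]; positivity
  obtain ⟨G, hG⟩ : ∃ G : ℝ, G = X + Y * κ + (Y + X * κ) := ⟨_, rfl⟩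
  have hG0 : 0 ≤ G := by rw [hG]; positivity
  obtain ⟨H, hH⟩ : ∃ H : ℝ, H = 1 / |δ| * (G * A + G * (|δ| * Y)) := ⟨_, rfl⟩
  have hH0 : 0 ≤ H := by rw [hH]; positivity
  obtain ⟨C, hC⟩ : ∃ C : ℝ, C = 2 * H / δ ^ 2 + 1 := ⟨_, rfl⟩
  have hC0 : 0 < C := by rw [hC]; positivity
  have hCD : 2 * H ≤ C * δ ^ 2 := by
    rw [hC, add_mul, div_mul_cancel₀ _ hδ2.ne']; linarith
  refine ⟨C, hC0, ?_⟩
  intro n Q w hn hS hy1 hy2 hz hx hX hzn hw
  have hy0 : 1 < |Q.y| := lt_of_lt_of_le h2 hy1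
  -- start
  obtain ⟨s1, s2, s3, hM⟩ := exists_mir hδ hS
  set β := b0 δ Q s1 s2 s3 with hβ
  have nβ : ip β β = 1 + δ ^ 2 - Q.z ^ 2 := b0_norm hδ hS hM
  have hz2 : Q.z ^ 2 ≤ κ ^ 2 := by
    rw [← sq_abs]; exact pow_le_pow_left₀ (abs_nonneg _) hz 2
  have nβ0 : 0 < ip β β := by rw [nβ]; linarith
  obtain ⟨η, hη, hηC⟩ : ∃ η : ℝ, (η = 1 ∨ η = -1) ∧ Cn (η • β) := by
    rcases Cn_or nβ0.le with h | h
    · exact ⟨1, Or.inl rfl, by rwa [one_smul]⟩
    · exact ⟨-1, Or.inr rfl, by rwa [neg_one_smul]⟩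
  have hη2 : η * η = 1 := by rcases hη with h | h <;> rw [h] <;> norm_num
  have habs : |η| = 1 := by rcases hη with h | h <;> rw [h] <;> norm_num
  have D0 : Dat δ Q s1 s2 s3 (0 : L) (η • β) (lc (-η) (fV Q) 0 (fV Q)) := by
    have h := (b0_dat hδ hS hM).lc (b0_dat hδ hS hM) η 0
    rw [zero_smul, add_zero, zero_smul, add_zero, smul_zero] at h
    convert h using 1
    unfold lc; ext <;> simp only <;> ring
  obtain ⟨t2, t3, hT, K⟩ := gb (δ := δ) n hM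
  obtain ⟨a, b, hD, ha, hb, e1, e2, e3⟩ := K 0 (η • β) _ D0 Cn_zero hηC
  have i2 : ip (η • β) s2 = η * (δ * Q.y) := by rw [ip_smul_left, b0_2 hδ hM]
  have i1 : ip (η • β) s1 = η * (δ * Q.x) := by rw [ip_smul_left, b0_1 hδ hM]
  have in0 : 0 ≤ ip (η • β) (η • β) := hηC.2
  obtain ⟨P, hP⟩ : ∃ P : ℝ, P = |Q.y| ^ n := ⟨_, rfl⟩
  have hP1 : 1 ≤ P := by rw [hP]; exact one_le_pow₀ hy0.le
  have hP0 : 0 < P := by linarith
  have a2 : |ip (η • β) s2| = |δ| * |Q.y| := by rw [i2, abs_mul, habs, abs_mul, one_mul]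
  have a1 : |ip (η • β) s1| ≤ |δ| * κ := by
    rw [i1, abs_mul, habs, abs_mul, one_mul]; exact mul_le_mul_of_nonneg_left hx hδ0.le
  -- the inner products after n steps
  have be : |ip b t2| ≤ |δ| * Y * P := by
    rw [e1, abs_mul, abs_pow, ← hP, a2]
    have := mul_le_mul_of_nonneg_left hy2 hδ0.le
    nlinarith
  have bn : δ ^ 2 * P ^ 2 ≤ ip b b := by
    rw [e2]
    have h3 : (Q.y ^ (n - 1) * ip (η • β) s2) ^ 2 ≤
        ∑ i ∈ Finset.range n, (Q.y ^ i * ip (η • β) s2) ^ 2 :=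
      Finset.single_le_sum (f := fun i => (Q.y ^ i * ip (η • β) s2) ^ 2)
        (fun i _ => sq_nonneg _) (Finset.mem_range.2 (by omega))
    have h4 : (Q.y ^ (n - 1) * ip (η • β) s2) ^ 2 = δ ^ 2 * P ^ 2 := by
      obtain ⟨m, rfl⟩ : ∃ m, n = m + 1 := ⟨n - 1, by omega⟩
      rw [i2, hP, Nat.add_sub_cancel, ← pow_mul, mul_comm (m + 1) 2, pow_mul, sq_abs]
      have : (Q.y ^ m * (η * (δ * Q.y))) ^ 2 = (η * η) * (δ ^ 2 * (Q.y ^ 2) ^ (m + 1)) := by
        ring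
      rw [this, hη2, one_mul]
    linarith
  have al : |ip b s1| ≤ A * P := by
    rw [e3]
    have h3 : |∑ i ∈ Finset.range n, (stepR^[i + 1] Q).x * (Q.y ^ i * ip (η • β) s2)| ≤
        ∑ i ∈ Finset.range n, X * (|δ| * Y) * |Q.y| ^ i := by
      refine (Finset.abs_sum_le_sum_abs _ _).trans (Finset.sum_le_sum fun i hi => ?_)
      rw [abs_mul, abs_mul, abs_pow, a2]
      have h5 := hX i (Finset.mem_range.1 hi)
      have h6 : |Q.y| ^ i * (|δ| * |Q.y|) ≤ |Q.y| ^ i * (|δ| * Y) := by gcongr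
      calc |(stepR^[i + 1] Q).x| * (|Q.y| ^ i * (|δ| * |Q.y|))
          ≤ X * (|Q.y| ^ i * (|δ| * Y)) := mul_le_mul h5 h6 (by positivity) hX0
        _ = _ := by ring
    rw [← Finset.mul_sum] at h3
    have h7 := mul_le_mul_of_nonneg_left (geo h2 hy1 n)
      (by positivity : 0 ≤ X * (|δ| * Y))
    rw [← hP] at h7
    calc _ ≤ |ip (η • β) s1| + _ := abs_add_le _ _
      _ ≤ |δ| * κ + X * (|δ| * Y) * (P / (κ2 - 1)) := add_le_add a1 (h3.trans h7)
      _ ≤ |δ| * κ * P + X * (|δ| * Y) * (P / (κ2 - 1)) := by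
          have : |δ| * κ * 1 ≤ |δ| * κ * P := mul_le_mul_of_nonneg_left hP1 (by positivity)
          linarith
      _ = A * P := by rw [hA]; ring
  -- the second pair
  have hSn : OnS δ (stepR^[n] Q) := hS.iter n
  have D1 := b0_dat hδ hSn hT
  set U := b0 δ (stepR^[n] Q) s1 t2 t3 with hU
  have hxn : |(stepR^[n] Q).x| ≤ X := by
    obtain ⟨m, rfl⟩ : ∃ m, n = m + 1 := ⟨n - 1, by omega⟩
    exact hX m (by omega)
  have hyn : (stepR^[n] Q).y = Q.y := iter_y n Q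
  have gx : |gX (stepR^[n] Q)| ≤ G := by
    unfold gX
    rw [hyn]
    have h5 : |Q.y * (stepR^[n] Q).z| ≤ Y * κ := by
      rw [abs_mul]; exact mul_le_mul hy2 hzn (abs_nonneg _) (by linarith)
    calc _ ≤ |(stepR^[n] Q).x| + |Q.y * (stepR^[n] Q).z| := abs_sub _ _
      _ ≤ X + Y * κ := add_le_add hxn h5
      _ ≤ G := by rw [hG]; have : 0 ≤ Y + X * κ := by positivity
                  linarith
  have gb' : |gB (stepR^[n] Q)| ≤ G := by
    unfold gB
    rw [hyn]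
    have h5 : |(stepR^[n] Q).x * (stepR^[n] Q).z| ≤ X * κ := by
      rw [abs_mul]; exact mul_le_mul hxn hzn (abs_nonneg _) (by linarith)
    calc _ ≤ |Q.y| + |(stepR^[n] Q).x * (stepR^[n] Q).z| := abs_sub _ _
      _ ≤ Y + X * κ := add_le_add hy2 h5
      _ ≤ G := by rw [hG]; have : 0 ≤ X + Y * κ := by positivity
                  linarith
  have cr : |ip b U| ≤ H * P := by
    have e : ip b U = 1 / δ * (gX (stepR^[n] Q) * ip b s1 + gB (stepR^[n] Q) * ip b t2) := by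
      rw [hU, b0, ip_smul_right, ip_sub_right, ip_add_right, ip_smul_right, ip_smul_right,
        ip_smul_right, hD.b3]
      ring
    rw [e, abs_mul, abs_div, abs_one]
    have h5 : |gX (stepR^[n] Q) * ip b s1 + gB (stepR^[n] Q) * ip b t2| ≤
        G * (A * P) + G * (|δ| * Y * P) := by
      refine (abs_add_le _ _).trans ?_
      rw [abs_mul, abs_mul]
      exact add_le_add (mul_le_mul gx al (abs_nonneg _) hG0)
        (mul_le_mul gb' be (abs_nonneg _) hG0)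
    calc _ ≤ 1 / |δ| * (G * (A * P) + G * (|δ| * Y * P)) :=
          mul_le_mul_of_nonneg_left h5 (by positivity)
      _ = H * P := by rw [hH]; ring
  have hUU : 0 ≤ ip U U := by
    rw [hU, b0_norm hδ hSn hT]
    have : (stepR^[n] Q).z ^ 2 ≤ κ ^ 2 := by
      rw [← sq_abs]; exact pow_le_pow_left₀ (abs_nonneg _) hzn 2
    linarith
  have hN : C / P * P = C := div_mul_cancel₀ _ hP0.ne'
  have hN0 : 0 ≤ C / P := by positivity
  have fin := dom hδ hSn hT w hw hD D1 ha hb (N := C / P)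
    (by rw [add_zero]; exact Cn_smul ha hN0) (by rw [sub_zero]; exact Cn_smul ha hN0)
    (cnN hb hδ2 hP0 bn cr hUU hH0 hC0 hN hCD) (cnN' hb hδ2 hP0 bn cr hUU hH0 hC0 hN hCD)
  rw [dRk_lc, drun_lc, drun_lc] at fin
  simp only [lc] at fin
  have f1 : |-1 * (drun w (stepR^[n] Q) (fV (stepR^[n] Q))).x +
      0 * (drun w (stepR^[n] Q) (fV (stepR^[n] Q))).x| =
      |(drun w (stepR^[n] Q) (fV (stepR^[n] Q))).x| := by
    rw [zero_mul, add_zero, neg_one_mul, abs_neg]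
  have f2 : |-η * (drun w (stepR^[n] Q) (dRk n Q (fV Q))).x +
      0 * (drun w (stepR^[n] Q) (dRk n Q (fV Q))).x| =
      |(drun w (stepR^[n] Q) (dRk n Q (fV Q))).x| := by
    rw [zero_mul, add_zero, abs_mul, abs_neg, habs, one_mul]
  rw [f1, f2] at fin
  rw [← hP]
  calc _ ≤ C / P * |(drun w (stepR^[n] Q) (dRk n Q (fV Q))).x| * P :=
        mul_le_mul_of_nonneg_right fin hP0.le
    _ = (C / P * P) * |(drun w (stepR^[n] Q) (dRk n Q (fV Q))).x| := by ring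
    _ = _ := by rw [hN]

/-! ### words -/

lemma head_word (d : ℕ → ℕ) (hd : ∀ k, 1 ≤ d k) (j k : ℕ) (h : j ≠ 0 ∨ k ≠ 0) :
    ∃ w, Wd d j ++ List.replicate k Mv.R = Mv.R :: w := by
  rcases Nat.eq_zero_or_pos j with rfl | hj
  · obtain ⟨k, rfl⟩ : ∃ m, k = m + 1 := ⟨k - 1, by omega⟩
    exact ⟨List.replicate k Mv.R, by rw [Wd, List.nil_append, List.replicate_succ]⟩
  · obtain ⟨j, rfl⟩ : ∃ m, j = m + 1 := ⟨j - 1, by omega⟩
    obtain ⟨w, hw⟩ := Wd_head d hd j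
    exact ⟨w ++ List.replicate k Mv.R, by rw [hw]; rfl⟩

lemma Vt_eq (d : ℕ → ℕ) (j k : ℕ) (p : P3) :
    Vt d j k p = (drun (Wd d j ++ List.replicate k Mv.R) p (fV p)).z := by
  rw [drun_append, run_Wd, drun_Wd, drun_rep]; rfl

lemma run_eq (d : ℕ → ℕ) (j k : ℕ) (p : P3) :
    run (Wd d j ++ List.replicate k Mv.R) p = stepR^[k] (orb d p j) := by
  rw [run_append, run_Wd, run_rep]

/-- the two derivatives, seen from the reversed end -/
lemma two (d : ℕ → ℕ) (j k n : ℕ) (p : P3) (w : List Mv)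
    (hw : Wd d j ++ List.replicate k Mv.R = Mv.R :: w) :
    let Q := rt (stepR^[k + n] (orb d p j))
    stepR^[n] Q = rt (stepR^[k] (orb d p j)) ∧
    (run w.reverse (stepR^[n] Q)).x = p.z ∧
    |Vt d j k p| = |(drun w.reverse (stepR^[n] Q) (fV (stepR^[n] Q))).x| ∧
    |Vt d j (k + n) p| = |(drun w.reverse (stepR^[n] Q) (dRk n Q (fV Q))).x| := by
  intro Q
  have hQ : stepR^[n] Q = rt (stepR^[k] (orb d p j)) := by
    have := iter_rt' (i := n) (l := k + n) (by omega) (orb d p j)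
    rwa [Nat.add_sub_cancel] at this
  have hr : (Wd d j ++ List.replicate k Mv.R).reverse = w.reverse ++ [Mv.R] := by
    rw [hw, List.reverse_cons]
  refine ⟨hQ, ?_, ?_, ?_⟩
  · have h1 := run_rev (Wd d j ++ List.replicate k Mv.R) p
    rw [run_eq, ← hQ, hr, run_append] at h1
    have := congrArg P3.z h1
    exact this
  · rw [Vt_eq, revz, run_eq, ← hQ, hr, drun_append]
    rfl
  · rw [Vt_eq, revz, run_eq]
    have h1 : (Wd d j ++ List.replicate (k + n) Mv.R).reverse =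
        List.replicate n Mv.R ++ (w.reverse ++ [Mv.R]) := by
      rw [← hr, List.reverse_append, List.reverse_append, List.reverse_replicate,
        List.reverse_replicate, ← List.append_assoc, add_comm k n, List.replicate_add]
    rw [h1, drun_append, run_rep, drun_rep, drun_append]
    rfl

/-- bound of `y` when two successive members of the run are bounded -/
lemma y_le {δ κ y a b : ℝ} (hκ : 1 ≤ κ) (h : a ^ 2 + b ^ 2 - 2 * y * a * b = 1 + δ ^ 2 - y ^ 2)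
    (ha : |a| ≤ κ) (hb : |b| ≤ κ) : |y| ≤ κ ^ 2 + (1 + δ ^ 2 + κ ^ 4) := by
  have ha2 : a ^ 2 ≤ κ ^ 2 := by rw [← sq_abs]; exact pow_le_pow_left₀ (abs_nonneg _) ha 2
  have hb2 : b ^ 2 ≤ κ ^ 2 := by rw [← sq_abs]; exact pow_le_pow_left₀ (abs_nonneg _) hb 2
  have hab : |a * b| ≤ κ ^ 2 := by
    rw [abs_mul, sq]; exact mul_le_mul ha hb (abs_nonneg _) (by linarith)
  have h1 : (y - a * b) ^ 2 ≤ 1 + δ ^ 2 + κ ^ 4 := by
    have e : (y - a * b) ^ 2 = 1 + δ ^ 2 - a ^ 2 - b ^ 2 + a ^ 2 * b ^ 2 := by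
      linear_combination h
    have h3 : a ^ 2 * b ^ 2 ≤ κ ^ 2 * κ ^ 2 := mul_le_mul ha2 hb2 (sq_nonneg _) (sq_nonneg _)
    nlinarith [sq_nonneg a, sq_nonneg b]
  have h2 : 1 ≤ 1 + δ ^ 2 + κ ^ 4 := by nlinarith [sq_nonneg δ, sq_nonneg (κ ^ 2)]
  have h4 : |y - a * b| ≤ 1 + δ ^ 2 + κ ^ 4 := by
    apply abs_le_of_sq_le_sq _ (by linarith)
    nlinarith
  calc |y| = |a * b + (y - a * b)| := by ring_nf
    _ ≤ |a * b| + |y - a * b| := abs_add_le _ _
    _ ≤ _ := add_le_add hab h4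

theorem tSRGT (h1 : SWin) (h2 : SDt) (h3 : SCoord) : SRGT := by
  intro δ κ κ2 hδ hκ1 hκ hκ2
  obtain ⟨Y, hY⟩ : ∃ Y : ℝ, Y = κ ^ 2 + (1 + δ ^ 2 + κ ^ 4) := ⟨_, rfl⟩
  have hY1 : 1 ≤ Y := by rw [hY]; nlinarith [sq_nonneg δ, sq_nonneg κ, sq_nonneg (κ ^ 2)]
  obtain ⟨X, hX⟩ : ∃ X : ℝ, X = 2 * Y * κ + κ := ⟨_, rfl⟩
  have hX0 : 0 ≤ X := by rw [hX]; have : 0 ≤ Y := by linarith
                         positivity
  obtain ⟨C, hC0, hC⟩ := core hδ hκ1 hκ hκ2 hX0 hY1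
  obtain ⟨K, hK⟩ := h1 δ κ hδ hκ1 hκ
  refine ⟨C + 1, by linarith, ?_⟩
  intro d hd j k l hkl v hv hy htk htl
  have hS : OnS δ (ze δ v) := (h3 δ).1 v hv
  have hv1 : |v.1| < 1 := hv
  have hs : 0 < 1 - v.1 ^ 2 := by
    have : v.1 ^ 2 < 1 := by rw [← sq_abs]; nlinarith [abs_nonneg v.1]
    linarith
  have hsq : 0 < √(1 - v.1 ^ 2) := Real.sqrt_pos.2 hs
  have dtV : ∀ m, |dt (Tf δ d j m) v| = |Vt d j m (ze δ v)| / √(1 - v.1 ^ 2) := by
    intro m
    rw [Tf_eq, ((h2 δ (Function.update d j m) (j + 1)).2.2 v hv), Vt_eq_Vy, abs_div, abs_neg,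
      abs_of_pos hsq]
  rw [dtV, dtV]
  suffices hmain : |Vt d j k (ze δ v)| * κ2 ^ (l - k) ≤ (C + 1) * |Vt d j l (ze δ v)| by
    calc _ = |Vt d j k (ze δ v)| * κ2 ^ (l - k) / √(1 - v.1 ^ 2) := by ring
      _ ≤ (C + 1) * |Vt d j l (ze δ v)| / √(1 - v.1 ^ 2) := by gcongr
      _ = _ := by ring
  obtain ⟨n, rfl⟩ : ∃ n, l = k + n := ⟨l - k, by omega⟩
  rw [Nat.add_sub_cancel_left]
  rcases Nat.eq_zero_or_pos n with rfl | hn
  · rw [pow_zero, mul_one, add_zero]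
    nlinarith [abs_nonneg (Vt d j k (ze δ v))]
  by_cases hjk : j = 0 ∧ k = 0
  · obtain ⟨rfl, rfl⟩ := hjk
    have : Vt d 0 0 (ze δ v) = 0 := rfl
    rw [this, abs_zero, zero_mul]
    positivity
  obtain ⟨w, hw⟩ := head_word d hd j k (by omega)
  obtain ⟨hQ, hz, hVk, hVl⟩ := two d j k n (ze δ v) w hw
  set q0 := orb d (ze δ v) j with hq0
  set Q := rt (stepR^[k + n] q0) with hQd
  have hS0 : OnS δ q0 := hS.orb d j
  have hyq : κ2 ≤ |q0.y| := hy
  have hy1 : 1 < |q0.y| := lt_of_lt_of_le hκ2 hyq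
  have hmem := (hK q0 k (k + n) hS0 hy1 (by omega) htk htl).1
  have hQy : Q.y = q0.y := iter_y _ _
  -- bound of y
  have hyY : |q0.y| ≤ Y := by
    have he := tf_energy hS d j k
    have m1 := hmem k le_rfl (by omega)
    have m2 := hmem (k + 1) (by omega) (by omega)
    rw [hY]
    exact y_le hκ1 he m1 m2
  have hxm : ∀ m, k ≤ m → m + 1 ≤ k + n → |(rt (stepR^[m] q0)).x| ≤ X := by
    intro m hm1 hm2
    have m1 := hmem m hm1 (by omega)
    have m2 := hmem (m + 1) (by omega) hm2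
    have e : (rt (stepR^[m] q0)).x = 2 * q0.y * (stepR^[m] q0).z - (stepR^[m + 1] q0).z := by
      simp only [rt]
      rw [iter_y, iter_x]
    rw [e, hX]
    have h5 : |2 * q0.y * (stepR^[m] q0).z| ≤ 2 * Y * κ := by
      rw [abs_mul, abs_mul, abs_two]
      exact mul_le_mul (by linarith) m1 (abs_nonneg _) (by linarith)
    exact (abs_sub _ _).trans (add_le_add h5 m2)
  have fin := hC n Q w.reverse hn (by rw [hQd]; exact onS_rt (hS0.iter _))
    (by rw [hQy]; exact hyq) (by rw [hQy]; exact hyY) htl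
    (by
      have h5 : Q.x = (stepR^[1] Q).z := rfl
      rw [h5, hQd, iter_rt' (by omega : 1 ≤ k + n)]
      exact hmem (k + n - 1) (by omega) (by omega))
    (by
      intro i hi
      rw [hQd, iter_rt' (by omega : i + 1 ≤ k + n)]
      exact hxm _ (by omega) (by omega))
    (by rw [hQ]; exact htk)
    (by
      rw [hz]
      have : (ze δ v).z = v.1 := rfl
      rw [this]
      nlinarith [sq_nonneg δ])
  rw [← hVk, ← hVl, hQy] at fin
  have hpw : κ2 ^ n ≤ |q0.y| ^ n := pow_le_pow_left₀ (by linarith) hyq n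
  calc |Vt d j k (ze δ v)| * κ2 ^ n ≤ |Vt d j k (ze δ v)| * |q0.y| ^ n :=
        mul_le_mul_of_nonneg_left hpw (abs_nonneg _)
    _ ≤ C * |Vt d j (k + n) (ze δ v)| := fin
    _ ≤ _ := by nlinarith [abs_nonneg (Vt d j (k + n) (ze δ v))]

end Pool.Agent.H295.TmSRGT
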