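import Pool.Agent.H857.WT.Core

/-!
# WT W19: the number of real vectors with integral products in a box (helper295)
-/

set_option autoImplicit false

namespace Pool.Agent.H295.WT19

open Module Polynomial Pool.Agent.H857.WT

/-- the vectors of the statement -/
def SS (r : ℕ) (B Q : ℝ) : Set (Fin r → ℝ) :=
  {Y : Fin r → ℝ | (∃ j, Y j ≠ 0) ∧ (∀ i j, ∃ n : ℤ, Y i * Y j = n) ∧
    ∀ j, |Y j| ≤ B * Q ^ ((j : ℕ) + 1)}

/-- the vectors whose first nonzero coordinate has the number `k` -/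
def SK (r : ℕ) (B Q : ℝ) (k : Fin r) : Set (Fin r → ℝ) :=
  {Y : Fin r → ℝ | (Y k ≠ 0 ∧ ∀ j < k, Y j = 0) ∧ (∀ i j, ∃ n : ℤ, Y i * Y j = n) ∧
    ∀ j, |Y j| ≤ B * Q ^ ((j : ℕ) + 1)}

theorem SS_sub (r : ℕ) (B Q : ℝ) : SS r B Q ⊆ ⋃ k, SK r B Q k := by
  rintro Y ⟨⟨j, hj⟩, h2, h3⟩
  rw [Set.mem_iUnion]
  obtain ⟨k, hk, hmin⟩ := Finset.exists_min_image (Finset.univ.filter fun j => Y j ≠ 0) id
    ⟨j, by simp [hj]⟩
  rw [Finset.mem_filter] at hk
  refine ⟨k, ⟨hk.2, fun i hi => ?_⟩, h2, h3⟩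
  by_contra hne
  have := hmin i (by simp [hne])
  simp only [id] at this
  exact absurd hi (not_lt.2 this)

/-- the vectors are integral multiples of the square root of a squarefree number -/
theorem structure_Y {r : ℕ} {B Q : ℝ} {k : Fin r} (hB : 0 < B) (hQ : 1 ≤ Q) {Y : Fin r → ℝ}
    (hY : Y ∈ SK r B Q k) : ∃ (D y : ℕ) (s : Fin r → ℤ), 1 ≤ D ∧ 1 ≤ y ∧
      D * y ^ 2 ≤ ⌊(B * Q ^ ((k : ℕ) + 1)) ^ 2⌋₊ ∧ (∀ j, Y j = Real.sqrt D * s j) ∧
      (s k = y ∨ s k = -(y : ℤ)) ∧ (∀ j < k, s j = 0) ∧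
      ∀ j, |(s j : ℝ)| ≤ B * Q ^ ((j : ℕ) + 1) / Real.sqrt D := by
  obtain ⟨⟨hk, hlt⟩, hint, hle⟩ := hY
  obtain ⟨n, hn⟩ := hint k k
  have hnpos : 0 < n := by
    have : (0 : ℝ) < n := by rw [← hn]; exact mul_self_pos.2 hk
    exact_mod_cast this
  obtain ⟨n', rfl⟩ := Int.eq_ofNat_of_zero_le hnpos.le
  obtain ⟨D, y, hDy, hD⟩ := Nat.sq_mul_squarefree n'
  have hn' : 0 < n' := by exact_mod_cast hnpos
  have hD0 : 1 ≤ D := Nat.one_le_iff_ne_zero.2 fun h => by
    rw [h, mul_zero] at hDy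
    omega
  have hy0 : 1 ≤ y := Nat.one_le_iff_ne_zero.2 fun h => by
    rw [h] at hDy
    simp at hDy
    omega
  have hDR : (0 : ℝ) < D := by exact_mod_cast hD0
  have hyR : (0 : ℝ) < y := by exact_mod_cast hy0
  have hsq : 0 < Real.sqrt D := Real.sqrt_pos.2 hDR
  have hsq2 : Real.sqrt D * Real.sqrt D = D := Real.mul_self_sqrt hDR.le
  have hnR : Y k * Y k = (D : ℝ) * (y : ℝ) ^ 2 := by
    rw [hn, ← hDy]
    push_cast
    ring
  -- the sign
  obtain ⟨σ, hσ, hYk⟩ : ∃ σ : ℤ, (σ = 1 ∨ σ = -1) ∧ Y k = σ * (y * Real.sqrt D) := by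
    have h1 : Y k * Y k = (y * Real.sqrt D) * (y * Real.sqrt D) := by
      rw [hnR]
      calc (D : ℝ) * (y : ℝ) ^ 2 = (y : ℝ) ^ 2 * (Real.sqrt D * Real.sqrt D) := by
            rw [hsq2]; ring
        _ = _ := by ring
    rcases mul_self_eq_mul_self_iff.1 h1 with h | h
    · exact ⟨1, Or.inl rfl, by rw [h]; simp⟩
    · exact ⟨-1, Or.inr rfl, by rw [h]; simp⟩
  have hσ2 : σ * σ = 1 := by rcases hσ with h | h <;> rw [h] <;> norm_num
  have hσR : (σ : ℝ) * σ = 1 := by exact_mod_cast hσ2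
  -- divisibility
  have hex : ∀ j, ∃ s : ℤ, Y j = Real.sqrt D * s := by
    intro j
    obtain ⟨t, ht⟩ := hint j k
    obtain ⟨m, hm⟩ := hint j j
    have h1 : (t : ℝ) ^ 2 = (m : ℝ) * (D * (y : ℝ) ^ 2) := by
      rw [← ht, ← hm, ← hnR]
      ring
    have h2 : t ^ 2 = m * ((D : ℤ) * (y : ℤ) ^ 2) := by exact_mod_cast h1
    have h3 : (y : ℤ) ∣ t := by
      rw [← Int.pow_dvd_pow_iff two_ne_zero]
      exact ⟨m * D, by rw [h2]; ring⟩
    obtain ⟨u, rfl⟩ := h3
    have hyZ : (y : ℤ) ≠ 0 := by exact_mod_cast (by omega : y ≠ 0)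
    have h4 : u ^ 2 = m * D := by
      have h5 : (y : ℤ) ^ 2 * u ^ 2 = (y : ℤ) ^ 2 * (m * D) := by
        rw [← mul_pow, h2]; ring
      exact mul_left_cancel₀ (pow_ne_zero 2 hyZ) h5
    have h5 : (D : ℤ) ∣ u :=
      (Squarefree.dvd_pow_iff_dvd (Int.squarefree_natCast.2 hD) two_ne_zero).1
        ⟨m, by rw [h4]; ring⟩
    obtain ⟨s', rfl⟩ := h5
    refine ⟨σ * s', ?_⟩
    have h6 : Y j * Y k * (σ * Real.sqrt D) = Real.sqrt D * (σ * s') * (y * D) := by
      rw [ht]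
      push_cast
      ring
    have h7 : Y j * Y k * (σ * Real.sqrt D) = Y j * (y * D) := by
      rw [hYk]
      calc Y j * (σ * (y * Real.sqrt D)) * (σ * Real.sqrt D) =
          Y j * ((σ * σ) * (y * (Real.sqrt D * Real.sqrt D))) := by ring
        _ = Y j * (y * D) := by rw [hσR, hsq2, one_mul]
    rw [h7] at h6
    push_cast
    exact mul_right_cancel₀ (by positivity) h6
  choose s hs using hex
  refine ⟨D, y, s, hD0, hy0, ?_, hs, ?_, ?_, ?_⟩
  · rw [Nat.le_floor_iff (by positivity)]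
    push_cast
    rw [← hnR, ← sq, ← sq_abs]
    exact pow_le_pow_left₀ (abs_nonneg _) (hle k) 2
  · have h1 : (s k : ℝ) = σ * y := by
      have h2 := hs k
      rw [hYk] at h2
      have h3 : Real.sqrt D * (s k : ℝ) = Real.sqrt D * (σ * y) := by
        rw [← h2]; ring
      exact mul_left_cancel₀ hsq.ne' h3
    have h2 : s k = σ * y := by exact_mod_cast h1
    rcases hσ with h | h
    · left; rw [h2, h, one_mul]
    · right; rw [h2, h, neg_one_mul]
  · intro j hj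
    have h1 := hs j
    rw [hlt j hj] at h1
    have h2 : (s j : ℝ) = 0 := by
      rcases mul_eq_zero.1 h1.symm with h | h
      · exact absurd h hsq.ne'
      · exact h
    exact_mod_cast h2
  · intro j
    rw [le_div_iff₀ hsq]
    have h1 := hle j
    rw [hs j, abs_mul, abs_of_pos hsq] at h1
    linarith

open Classical in
/-- the boxes -/
noncomputable def box {r : ℕ} (k : Fin r) (B Q : ℝ) (D y : ℕ) (j : Fin r) : Finset ℤ :=
  if j < k then {0} else if j = k then {(y : ℤ), -(y : ℤ)} else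
    Finset.Icc (-⌊B * Q ^ ((j : ℕ) + 1) / Real.sqrt D⌋) ⌊B * Q ^ ((j : ℕ) + 1) / Real.sqrt D⌋

theorem card_box {r : ℕ} (k : Fin r) {B Q : ℝ} (hB : 0 < B) (hQ : 1 ≤ Q) {D y : ℕ} (hD : 1 ≤ D)
    (hy : 1 ≤ y) (hX : D * y ^ 2 ≤ ⌊(B * Q ^ ((k : ℕ) + 1)) ^ 2⌋₊) (j : Fin r) :
    ((box k B Q D y j).card : ℝ) ≤ (if j = k then 2 else 1) *
      (if k < j then 3 * B * Q ^ ((j : ℕ) + 1) * (Real.sqrt D)⁻¹ else 1) := by
  classical
  have hDR : (0 : ℝ) < D := by exact_mod_cast hD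
  have hsq : 0 < Real.sqrt D := Real.sqrt_pos.2 hDR
  unfold box
  rcases lt_trichotomy j k with h | h | h
  · rw [if_pos h, if_neg h.ne, if_neg (not_lt.2 h.le)]
    simp
  · subst h
    rw [if_neg (lt_irrefl _), if_pos rfl, if_pos rfl, if_neg (lt_irrefl _), mul_one]
    exact_mod_cast Finset.card_le_two
  · rw [if_neg (not_lt.2 h.le), if_neg h.ne', if_neg h.ne', if_pos h, one_mul]
    set z := B * Q ^ ((j : ℕ) + 1) / Real.sqrt D with hz
    have hz1 : 1 ≤ z := by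
      rw [hz, one_le_div hsq]
      have h1 : (D : ℝ) ≤ (B * Q ^ ((k : ℕ) + 1)) ^ 2 := by
        have h2 : D ≤ ⌊(B * Q ^ ((k : ℕ) + 1)) ^ 2⌋₊ :=
          le_trans (Nat.le_mul_of_pos_right D (by positivity)) hX
        exact (Nat.cast_le.2 h2).trans (Nat.floor_le (by positivity))
      have h2 : Real.sqrt D ≤ B * Q ^ ((k : ℕ) + 1) := by
        rw [← Real.sqrt_sq (by positivity : 0 ≤ B * Q ^ ((k : ℕ) + 1))]
        exact Real.sqrt_le_sqrt h1
      refine h2.trans ?_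
      have h3 : (k : ℕ) + 1 ≤ (j : ℕ) + 1 := by
        have : (k : ℕ) < j := h
        omega
      have := pow_le_pow_right₀ hQ h3
      gcongr
    rw [Int.card_Icc]
    have h1 : 0 ≤ ⌊z⌋ := Int.floor_nonneg.2 (by linarith)
    have h2 : (((⌊z⌋ + 1 - -⌊z⌋).toNat : ℕ) : ℝ) = 2 * (⌊z⌋ : ℝ) + 1 := by
      have h3 : (((⌊z⌋ + 1 - -⌊z⌋).toNat : ℕ) : ℤ) = ⌊z⌋ + 1 - -⌊z⌋ :=
        Int.toNat_of_nonneg (by omega)
      have h4 : (((⌊z⌋ + 1 - -⌊z⌋).toNat : ℕ) : ℝ) = ((⌊z⌋ + 1 - -⌊z⌋ : ℤ) : ℝ) := by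
        exact_mod_cast h3
      rw [h4]
      push_cast
      ring
    rw [h2]
    have h3 := Int.floor_le z
    have h4 : 3 * B * Q ^ ((j : ℕ) + 1) * (Real.sqrt D)⁻¹ = 3 * z := by
      rw [hz, div_eq_mul_inv]
      ring
    rw [h4]
    linarith

/-- the number of the vectors for given `D`, `y` -/
theorem prod_box {r : ℕ} (k : Fin r) {B Q : ℝ} (hB : 0 < B) (hQ : 1 ≤ Q) {D y : ℕ} (hD : 1 ≤ D)
    (hy : 1 ≤ y) (hX : D * y ^ 2 ≤ ⌊(B * Q ^ ((k : ℕ) + 1)) ^ 2⌋₊) :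
    ((Fintype.piFinset (box k B Q D y)).card : ℝ) ≤
      2 * (3 * B) ^ (r - 1 - (k : ℕ)) * Q ^ (∑ j ∈ Finset.Ioi k, ((j : ℕ) + 1)) *
        (Real.sqrt D)⁻¹ ^ (r - 1 - (k : ℕ)) := by
  classical
  rw [Fintype.card_piFinset]
  push_cast
  refine (Finset.prod_le_prod (fun _ _ => Nat.cast_nonneg _)
    (fun j _ => card_box k hB hQ hD hy hX j)).trans (le_of_eq ?_)
  rw [Finset.prod_mul_distrib, Finset.prod_ite_eq' Finset.univ k (fun _ => (2 : ℝ)),
    if_pos (Finset.mem_univ k), ← Finset.prod_filter, Finset.filter_lt_eq_Ioi,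
    Finset.prod_mul_distrib, Finset.prod_mul_distrib, Finset.prod_const, Finset.prod_const,
    Finset.prod_pow_eq_pow_sum, Fin.card_Ioi]
  ring

/-- the number of the vectors with the first nonzero coordinate `k`, in terms of the sums over the
fields -/
theorem card_SK {r : ℕ} (k : Fin r) {B Q : ℝ} (hB : 0 < B) (hQ : 1 ≤ Q) :
    (SK r B Q k).Finite ∧ ((SK r B Q k).ncard : ℝ) ≤
      2 * (3 * B) ^ (r - 1 - (k : ℕ)) * Q ^ (∑ j ∈ Finset.Ioi k, ((j : ℕ) + 1)) *
        ∑ D ∈ Finset.Icc 1 ⌊(B * Q ^ ((k : ℕ) + 1)) ^ 2⌋₊,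
          ∑ y ∈ Finset.Icc 1 ⌊(B * Q ^ ((k : ℕ) + 1)) ^ 2⌋₊
            with D * y ^ 2 ≤ ⌊(B * Q ^ ((k : ℕ) + 1)) ^ 2⌋₊,
              (Real.sqrt D)⁻¹ ^ (r - 1 - (k : ℕ)) := by
  classical
  set X := ⌊(B * Q ^ ((k : ℕ) + 1)) ^ 2⌋₊ with hX
  let P : Finset (Fin r → ℝ) := (Finset.Icc 1 X).biUnion fun D =>
    ((Finset.Icc 1 X).filter fun y => D * y ^ 2 ≤ X).biUnion fun y =>
      (Fintype.piFinset (box k B Q D y)).image fun s j => Real.sqrt D * (s j : ℝ)
  have hsub : SK r B Q k ⊆ (P : Set (Fin r → ℝ)) := by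
    intro Y hY
    obtain ⟨D, y, s, hD, hy, hDy, hs, hsk, hslt, hsle⟩ := structure_Y hB hQ hY
    rw [Finset.mem_coe, Finset.mem_biUnion]
    have hDX : D ≤ X := le_trans (Nat.le_mul_of_pos_right D (by positivity)) hDy
    have hyX : y ≤ X := le_trans (by nlinarith) hDy
    refine ⟨D, Finset.mem_Icc.2 ⟨hD, hDX⟩, ?_⟩
    rw [Finset.mem_biUnion]
    refine ⟨y, Finset.mem_filter.2 ⟨Finset.mem_Icc.2 ⟨hy, hyX⟩, hDy⟩, ?_⟩
    rw [Finset.mem_image]
    refine ⟨s, ?_, funext fun j => (hs j).symm⟩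
    rw [Fintype.mem_piFinset]
    intro j
    unfold box
    split_ifs with h1 h2
    · rw [hslt j h1]
      simp
    · rw [h2]
      rcases hsk with h | h <;> rw [h] <;> simp
    · rw [Finset.mem_Icc]
      obtain ⟨h3, h4⟩ := abs_le.1 (hsle j)
      constructor
      · rw [neg_le]
        rw [Int.le_floor]
        push_cast
        linarith
      · exact Int.le_floor.2 h4
  refine ⟨P.finite_toSet.subset hsub, ?_⟩
  have h1 : (SK r B Q k).ncard ≤ P.card := by
    have := Set.ncard_le_ncard hsub P.finite_toSet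
    rwa [Set.ncard_coe_finset] at this
  refine (Nat.cast_le.2 h1).trans ?_
  rw [Finset.mul_sum]
  refine (Nat.cast_le.2 Finset.card_biUnion_le).trans ?_
  push_cast
  refine Finset.sum_le_sum fun D hD => ?_
  rw [Finset.mul_sum]
  refine (Nat.cast_le.2 Finset.card_biUnion_le).trans ?_
  push_cast
  refine Finset.sum_le_sum fun y hy => ?_
  rw [Finset.mem_Icc] at hD
  rw [Finset.mem_filter, Finset.mem_Icc] at hy
  refine (Nat.cast_le.2 Finset.card_image_le).trans ?_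
  exact prod_box k hB hQ hD.1 hy.1.1 hy.2

/-- the exponents -/
theorem sum_le {r : ℕ} (k : Fin r) :
    ∑ j ∈ Finset.Ioi k, ((j : ℕ) + 1) + ((k : ℕ) + 1) ≤ r * (r + 1) / 2 := by
  classical
  have h1 : ∑ j ∈ Finset.Ioi k, ((j : ℕ) + 1) + ((k : ℕ) + 1) =
      ∑ j ∈ insert k (Finset.Ioi k), ((j : ℕ) + 1) := by
    rw [Finset.sum_insert (by simp), add_comm]
  have h2 : ∑ j ∈ insert k (Finset.Ioi k), ((j : ℕ) + 1) ≤ ∑ j : Fin r, ((j : ℕ) + 1) :=
    Finset.sum_le_sum_of_subset (Finset.subset_univ _)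
  have h3 : ∑ j : Fin r, ((j : ℕ) + 1) = r * (r + 1) / 2 := by
    rw [Fin.sum_univ_eq_sum_range (fun j => j + 1) r]
    have h4 : ∀ n : ℕ, (∑ j ∈ Finset.range n, (j + 1)) * 2 = n * (n + 1) := by
      intro n
      induction n with
      | zero => simp
      | succ n ih => rw [Finset.sum_range_succ, add_mul, ih]; ring
    have h5 := h4 r
    omega
  rw [h1]
  exact h2.trans h3.le

theorem sum_le' {r : ℕ} (k : Fin r) :
    ∑ j ∈ Finset.Ioi k, ((j : ℕ) + 1) ≤ (r - 1 - (k : ℕ)) * r := by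
  have h1 : ∑ j ∈ Finset.Ioi k, ((j : ℕ) + 1) ≤ ∑ _j ∈ Finset.Ioi k, r :=
    Finset.sum_le_sum fun j _ => j.2
  rwa [Finset.sum_const, Fin.card_Ioi, smul_eq_mul] at h1

/-- the bound for one `k` -/
theorem bound_SK (h : W20) (r : ℕ) (B : ℝ) (hB : 0 < B) (k : Fin r) : ∃ C : ℝ, 0 ≤ C ∧
    ∀ Q : ℝ, 1 ≤ Q → ((SK r B Q k).ncard : ℝ) ≤ C * Q ^ max (2 * r) (r * (r + 1) / 2) := by
  obtain ⟨C₀, hC₀, hW⟩ := h
  set i := r - 1 - (k : ℕ) with hi
  have hk := k.2
  refine ⟨2 * (3 * B) ^ i * (C₀ * (B ^ 2 + B * (1 + 2 * |Real.log B| + 2 * r) + B)),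
    by positivity, fun Q hQ => ?_⟩
  have h1 := (card_SK k hB hQ).2
  set X := ⌊(B * Q ^ ((k : ℕ) + 1)) ^ 2⌋₊ with hX
  set E := ∑ j ∈ Finset.Ioi k, ((j : ℕ) + 1) with hE
  set M := max (2 * r) (r * (r + 1) / 2) with hM
  rw [← hi] at h1
  have hBQ : 0 < B * Q ^ ((k : ℕ) + 1) := by positivity
  have hXle : (X : ℝ) ≤ (B * Q ^ ((k : ℕ) + 1)) ^ 2 := Nat.floor_le (by positivity)
  -- the sum over the fields
  have key : Q ^ E * (∑ D ∈ Finset.Icc 1 X, ∑ y ∈ Finset.Icc 1 X with D * y ^ 2 ≤ X,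
      (Real.sqrt D)⁻¹ ^ i) ≤
      C₀ * (B ^ 2 + B * (1 + 2 * |Real.log B| + 2 * r) + B) * Q ^ M := by
    have hpos1 : 0 ≤ C₀ * B ^ 2 := by positivity
    have hpos2 : 0 ≤ C₀ * (B * (1 + 2 * |Real.log B| + 2 * r)) := by positivity
    have hpos3 : 0 ≤ C₀ * B := by positivity
    have hQM : 0 < Q ^ M := by positivity
    have hgoal : ∀ T : ℝ, (T ≤ C₀ * B ^ 2 * Q ^ M ∨
        T ≤ C₀ * (B * (1 + 2 * |Real.log B| + 2 * r)) * Q ^ M ∨ T ≤ C₀ * B * Q ^ M) →
        T ≤ C₀ * (B ^ 2 + B * (1 + 2 * |Real.log B| + 2 * r) + B) * Q ^ M := by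
      intro T hT
      have e : C₀ * (B ^ 2 + B * (1 + 2 * |Real.log B| + 2 * r) + B) * Q ^ M =
          C₀ * B ^ 2 * Q ^ M + C₀ * (B * (1 + 2 * |Real.log B| + 2 * r)) * Q ^ M +
            C₀ * B * Q ^ M := by ring
      have q1 : 0 ≤ C₀ * B ^ 2 * Q ^ M := by positivity
      have q2 : 0 ≤ C₀ * (B * (1 + 2 * |Real.log B| + 2 * r)) * Q ^ M := by positivity
      have q3 : 0 ≤ C₀ * B * Q ^ M := by positivity
      rw [e]
      rcases hT with hT | hT | hT <;> linarith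
    rcases Nat.eq_zero_or_pos X with hX0 | hX1
    · rw [hX0]
      simp only [Finset.Icc_eq_empty (by norm_num : ¬ (1 : ℕ) ≤ 0), Finset.sum_empty, mul_zero]
      positivity
    obtain ⟨hw0, hw1, hw2⟩ := hW X hX1
    have hsX : Real.sqrt X ≤ B * Q ^ ((k : ℕ) + 1) := by
      rw [← Real.sqrt_sq hBQ.le]
      exact Real.sqrt_le_sqrt hXle
    have hQE : 0 < Q ^ E := by positivity
    rcases Nat.lt_or_ge i 2 with hi2 | hi2
    · rcases Nat.lt_or_ge i 1 with hi1 | hi1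
      · -- i = 0
        have hi0 : i = 0 := by omega
        have hE0 : E = 0 := by
          have := sum_le' k
          rw [← hi, hi0, zero_mul] at this
          omega
        apply hgoal
        left
        rw [hi0, hE0]
        simp only [pow_zero, one_mul]
        refine hw0.trans ?_
        have h2 : (X : ℝ) ≤ B ^ 2 * Q ^ M := by
          refine hXle.trans ?_
          rw [mul_pow, ← pow_mul]
          have h3 : ((k : ℕ) + 1) * 2 ≤ M := by
            have : 2 * r ≤ M := le_max_left _ _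
            omega
          have := pow_le_pow_right₀ hQ h3
          gcongr
        calc C₀ * (X : ℝ) ≤ C₀ * (B ^ 2 * Q ^ M) := by gcongr
          _ = _ := by ring
      · -- i = 1
        have hi1' : i = 1 := by omega
        have hE1 : E ≤ r := by
          have := sum_le' k
          rw [← hi, hi1', one_mul] at this
          exact this
        apply hgoal
        right
        left
        rw [hi1']
        simp only [pow_one]
        have hlogX : 1 + Real.log X ≤ (1 + 2 * |Real.log B| + 2 * r) * Q := by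
          have hX1R : (1 : ℝ) ≤ X := by exact_mod_cast hX1
          have h2 : Real.log X ≤ 2 * (Real.log B + ((k : ℕ) + 1) * Real.log Q) := by
            calc Real.log X ≤ Real.log ((B * Q ^ ((k : ℕ) + 1)) ^ 2) :=
                  Real.log_le_log (by linarith) hXle
              _ = _ := by
                  rw [Real.log_pow, Real.log_mul hB.ne' (by positivity), Real.log_pow]
                  push_cast
                  ring
          have h3 : Real.log Q ≤ Q := (Real.log_le_sub_one_of_pos (by linarith)).trans (by linarith)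
          have h4 : 0 ≤ Real.log Q := Real.log_nonneg hQ
          have h5 : (((k : ℕ) : ℝ) + 1) * Real.log Q ≤ r * Q := by
            have : (((k : ℕ) : ℝ) + 1) ≤ r := by exact_mod_cast hk
            gcongr
          have h6 : Real.log B ≤ |Real.log B| * Q := by
            have := le_abs_self (Real.log B)
            have := abs_nonneg (Real.log B)
            nlinarith
          nlinarith
        have h7 : Q ^ E * (C₀ * (Real.sqrt X * (1 + Real.log X))) ≤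
            Q ^ r * (C₀ * ((B * Q ^ ((k : ℕ) + 1)) *
              ((1 + 2 * |Real.log B| + 2 * r) * Q))) := by
          have hX1R : (1 : ℝ) ≤ X := by exact_mod_cast hX1
          have h8 : 0 ≤ 1 + Real.log X := by
            have := Real.log_nonneg hX1R
            linarith
          have h9 := pow_le_pow_right₀ hQ hE1
          gcongr
        refine (mul_le_mul_of_nonneg_left hw1 hQE.le).trans (h7.trans ?_)
        have h8 : Q ^ r * (C₀ * ((B * Q ^ ((k : ℕ) + 1)) *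
            ((1 + 2 * |Real.log B| + 2 * r) * Q))) =
            C₀ * (B * (1 + 2 * |Real.log B| + 2 * r)) * Q ^ (r + ((k : ℕ) + 1) + 1) := by
          rw [pow_add Q (r + ((k : ℕ) + 1)) 1, pow_add Q r]
          ring
        rw [h8]
        have h9 : r + ((k : ℕ) + 1) + 1 ≤ M := by
          have : 2 * r ≤ M := le_max_left _ _
          omega
        have := pow_le_pow_right₀ hQ h9
        gcongr
    · -- i ≥ 2
      apply hgoal
      right
      right
      have h7 : Q ^ E * (C₀ * Real.sqrt X) ≤ Q ^ E * (C₀ * (B * Q ^ ((k : ℕ) + 1))) := by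
        gcongr
      refine (mul_le_mul_of_nonneg_left (hw2 i hi2) hQE.le).trans (h7.trans ?_)
      have h8 : Q ^ E * (C₀ * (B * Q ^ ((k : ℕ) + 1))) = C₀ * B * Q ^ (E + ((k : ℕ) + 1)) := by
        rw [pow_add Q E]
        ring
      rw [h8]
      have h9 : E + ((k : ℕ) + 1) ≤ M := (sum_le k).trans (le_max_right _ _)
      have := pow_le_pow_right₀ hQ h9
      gcongr
  refine h1.trans ?_
  calc 2 * (3 * B) ^ i * Q ^ E * (∑ D ∈ Finset.Icc 1 X,
        ∑ y ∈ Finset.Icc 1 X with D * y ^ 2 ≤ X, (Real.sqrt D)⁻¹ ^ i) =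
      2 * (3 * B) ^ i * (Q ^ E * (∑ D ∈ Finset.Icc 1 X,
        ∑ y ∈ Finset.Icc 1 X with D * y ^ 2 ≤ X, (Real.sqrt D)⁻¹ ^ i)) := by ring
    _ ≤ 2 * (3 * B) ^ i *
        (C₀ * (B ^ 2 + B * (1 + 2 * |Real.log B| + 2 * r) + B) * Q ^ M) := by gcongr
    _ = _ := by ring

/-- **W19.** -/
theorem w19 (h : W20) : W19 := by
  intro r B _ hB
  choose C hC0 hC using bound_SK h r B hB
  refine ⟨1 + ∑ k, C k, by
    have := Finset.sum_nonneg fun k (_ : k ∈ Finset.univ) => hC0 k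
    linarith, fun Q hQ => ?_⟩
  have hfin : (⋃ k, SK r B Q k).Finite := Set.finite_iUnion fun k => (card_SK k hB hQ).1
  have hsub := SS_sub r B Q
  refine ⟨hfin.subset hsub, ?_⟩
  have h1 : ((SS r B Q).ncard : ℝ) ≤ ∑ k, ((SK r B Q k).ncard : ℝ) := by
    have h2 := Set.ncard_le_ncard hsub hfin
    have h3 := Set.ncard_iUnion_le_of_fintype fun k => SK r B Q k
    exact_mod_cast h2.trans h3
  refine h1.trans ((Finset.sum_le_sum fun k _ => hC k Q hQ).trans ?_)
  rw [← Finset.sum_mul]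
  have : 0 ≤ Q ^ max (2 * r) (r * (r + 1) / 2) := by positivity
  nlinarith

end Pool.Agent.H295.WT19
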